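import Pool.Agent.Q123.SD.Basic

/-!
Designs closed under sums: the parameters.
-/

set_option autoImplicit false

open Finset Q123.CC Q123.ST

namespace Q123.SD

variable {v k lam : ℕ} {F : Finset (Finset (Fin v))}

/-- equal numbers of words with given pattern -/
theorem count_le {C : Finset (Fin v → ZMod 2)}
    (hS : ∀ x ∈ C, ∀ y ∈ C, ∀ z ∈ C, x + y + z ∈ C) {i j : Fin v} (s t s' t' : ZMod 2)
    (h1 : ∃ w ∈ C, w i = s ∧ w j = t) (h2 : ∃ w ∈ C, w i = s' ∧ w j = t') :
    (C.filter fun w => w i = s ∧ w j = t).card ≤ (C.filter fun w => w i = s' ∧ w j = t').card := by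
  classical
  obtain ⟨u, hu, hui, huj⟩ := h1
  obtain ⟨w, hw, hwi, hwj⟩ := h2
  apply card_le_card_of_injOn (fun x => x + u + w)
  · intro x hx
    rw [mem_coe, mem_filter] at hx ⊢
    refine ⟨hS x hx.1 u hu w hw, ?_, ?_⟩
    · show x i + u i + w i = s'
      rw [hx.2.1, hui, hwi, CharTwo.add_self_eq_zero, zero_add]
    · show x j + u j + w j = t'
      rw [hx.2.2, huj, hwj, CharTwo.add_self_eq_zero, zero_add]
  · intro x _ y _ hxy
    have h3 : x + (u + w) = y + (u + w) := by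
      rw [← add_assoc, ← add_assoc]
      exact hxy
    exact add_right_cancel h3

theorem quarter {C : Finset (Fin v → ZMod 2)}
    (hS : ∀ x ∈ C, ∀ y ∈ C, ∀ z ∈ C, x + y + z ∈ C) {i j : Fin v}
    (hp : ∀ s t : ZMod 2, ∃ w ∈ C, w i = s ∧ w j = t) :
    C.card = 4 * (C.filter fun w => w i = 1 ∧ w j = 1).card ∧
      (C.filter fun w => w i = 1).card = 2 * (C.filter fun w => w i = 1 ∧ w j = 1).card := by
  classical
  have heq : ∀ s t : ZMod 2, (C.filter fun w => w i = s ∧ w j = t).card =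
      (C.filter fun w => w i = 1 ∧ w j = 1).card := fun s t =>
    le_antisymm (count_le hS s t 1 1 (hp _ _) (hp _ _)) (count_le hS 1 1 s t (hp _ _) (hp _ _))
  have split : ∀ (D : Finset (Fin v → ZMod 2)) (l : Fin v),
      D.card = (D.filter fun w => w l = 1).card + (D.filter fun w => w l = 0).card := by
    intro D l
    rw [← card_filter_add_card_filter_not (s := D) (p := fun w => w l = 1)]
    congr 2
    ext w
    rw [mem_filter, mem_filter]
    have : ∀ z : ZMod 2, ¬ z = 1 ↔ z = 0 := by decide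
    rw [this]
  have h1 : ∀ s : ZMod 2, (C.filter fun w => w i = s).card =
      2 * (C.filter fun w => w i = 1 ∧ w j = 1).card := by
    intro s
    rw [split _ j, filter_filter, filter_filter, heq s 1, heq s 0]
    omega
  refine ⟨?_, h1 1⟩
  rw [split C i, h1, h1]
  omega

/-- the code has `4 N` words, `N` a power of two -/
theorem code_card {f : (Fin k → ZMod 2) → ZMod 2} {c : ZMod 2} {s : Finset (Fin k)}
    (hs : 2 ≤ s.card) (hf : ∀ x, f x = c + ∑ i ∈ s, x i) (C : Finset (Fin v → ZMod 2))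
    (hC : ClosedUnder f C) (hne : C.Nonempty) : ∃ d : ℕ, C.card = 2 ^ d := by
  classical
  obtain ⟨W, c0, hW⟩ := coset_of_affine hs hf C hC hne
  refine ⟨Module.finrank (ZMod 2) W, ?_⟩
  have h1 : Nat.card W = 2 ^ Module.finrank (ZMod 2) W := by
    rw [Module.natCard_eq_pow_finrank (K := ZMod 2) (V := W), Nat.card_zmod]
  rw [← h1]
  have hcc : ∀ c : Fin v → ZMod 2, c + c = 0 := fun c => funext fun j =>
    CharTwo.add_self_eq_zero (c j)
  have h2 : (C : Set (Fin v → ZMod 2)) ≃ W :=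
    { toFun := fun x => ⟨x.1 + c0, (hW x.1).1 x.2⟩
      invFun := fun x => ⟨x.1 + c0, by
        have : x.1 + c0 + c0 = x.1 := by rw [add_assoc, hcc, add_zero]
        exact (hW _).2 (by rw [this]; exact x.2)⟩
      left_inv := fun x => Subtype.ext (by
        show x.1 + c0 + c0 = x.1
        rw [add_assoc, hcc, add_zero])
      right_inv := fun x => Subtype.ext (by
        show x.1 + c0 + c0 = x.1
        rw [add_assoc, hcc, add_zero]) }
  rw [← Nat.card_congr h2]
  simp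

/-- the equations -/
theorem solve {v k lam b r N e0 eV : ℕ} (hN : 1 ≤ N) (h0 : e0 ≤ 1) (hV : eV ≤ 1) (hk : 2 ≤ k)
    (hkv : k + 2 ≤ v) (h1 : r + eV = 2 * N) (h2 : lam + eV = N) (h3 : b + e0 + eV = 4 * N)
    (h4 : b * k = v * r) (h5 : r * (k - 1) = lam * (v - 1)) :
    (e0 = 1 ∧ eV = 0 ∧ lam = N ∧ v + 1 = 4 * N ∧ k = 2 * N) ∨
      (e0 = 0 ∧ eV = 1 ∧ lam + 1 = N ∧ v + 1 = 4 * N ∧ k + 1 = 2 * N) ∨
      (e0 = 1 ∧ eV = 1 ∧ lam + 1 = N ∧ v = 2 * N ∧ k = N) := by
  obtain ⟨k', rfl⟩ : ∃ k', k = k' + 1 := ⟨k - 1, by omega⟩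
  obtain ⟨j, rfl⟩ : ∃ j, v = k' + 1 + (j + 2) := ⟨v - k' - 3, by omega⟩
  have e1 : k' + 1 - 1 = k' := by omega
  have e2 : k' + 1 + (j + 2) - 1 = k' + j + 2 := by omega
  rw [e1, e2] at h5
  have c1 : eV = 0 ∨ eV = 1 := by omega
  have c2 : e0 = 0 ∨ e0 = 1 := by omega
  rcases c1 with rfl | rfl <;> rcases c2 with rfl | rfl
  · exfalso
    have r1 : r = 2 * N := by omega
    have r2 : lam = N := by omega
    have r3 : b = 4 * N := by omega
    subst r1
    subst r2
    subst r3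
    have a1 : lam * (2 * (k' + 1)) = lam * (k' + 1 + (j + 2)) := by nlinarith
    have a2 := Nat.eq_of_mul_eq_mul_left (by omega) a1
    have a3 : lam * (2 * k') = lam * (k' + j + 2) := by nlinarith
    have a4 := Nat.eq_of_mul_eq_mul_left (by omega) a3
    omega
  · left
    have r1 : r = 2 * N := by omega
    have r2 : lam = N := by omega
    subst r1
    subst r2
    obtain ⟨b', hb'⟩ : ∃ b', b = b' := ⟨b, rfl⟩
    have r3 : b = 4 * lam - 1 := by omega
    have a3 : lam * (2 * k') = lam * (k' + j + 2) := by nlinarith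
    have a4 := Nat.eq_of_mul_eq_mul_left (by omega) a3
    have a5 : (b + 1) * (k' + 1) = 4 * lam * (k' + 1) := by rw [show b + 1 = 4 * lam by omega]
    have a6 : k' = j + 2 := by omega
    subst a6
    have a7 : (b + 1) * (j + 2 + 1) = b * (j + 2 + 1) + (j + 2 + 1) := by ring
    rw [a7, h4] at a5
    have a8 : (j + 2 + 1 + (j + 2)) * (2 * lam) + 2 * lam = 4 * lam * (j + 2 + 1) := by ring
    refine ⟨rfl, rfl, rfl, ?_, ?_⟩ <;> omega
  · right
    left
    obtain ⟨M, rfl⟩ : ∃ M, N = M + 1 := ⟨N - 1, by omega⟩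
    have r1 : r = 2 * M + 1 := by omega
    have r2 : lam = M := by omega
    have r3 : b = 4 * M + 3 := by omega
    subst r1
    subst r2
    subst r3
    -- h4 : (4M+3)(k'+1) = (k'+j+3)(2M+1), h5 : (2M+1) k' = M (k'+j+2)
    have g4 : ((4 * lam + 3 : ℕ) : ℤ) * ((k' + 1 : ℕ) : ℤ) =
        ((k' + 1 + (j + 2) : ℕ) : ℤ) * ((2 * lam + 1 : ℕ) : ℤ) := by exact_mod_cast h4
    have g5 : ((2 * lam + 1 : ℕ) : ℤ) * (k' : ℤ) = (lam : ℤ) * ((k' + j + 2 : ℕ) : ℤ) := by
      exact_mod_cast h5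
    push_cast at g4 g5
    have b1 : (k' : ℤ) * (lam + 1) = lam * (j + 2) := by linarith
    have b2 : (2 * (lam : ℤ) + 2) * (k' + 1) = (j + 2) * (2 * lam + 1) := by linarith
    have b3 : (2 : ℤ) * lam * (j + 2) + 2 * lam + 2 = (j + 2) * (2 * lam + 1) := by linarith
    have b4 : (j : ℤ) + 2 = 2 * lam + 2 := by linarith
    have b5 : (k' : ℤ) * (lam + 1) = 2 * lam * (lam + 1) := by rw [b1, b4]; ring
    have b6 : (k' : ℤ) = 2 * lam := mul_right_cancel₀ (by positivity) b5
    refine ⟨rfl, rfl, rfl, ?_, ?_⟩ <;> omega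
  · right
    right
    obtain ⟨M, rfl⟩ : ∃ M, N = M + 1 := ⟨N - 1, by omega⟩
    have r1 : r = 2 * M + 1 := by omega
    have r2 : lam = M := by omega
    have r3 : b = 4 * M + 2 := by omega
    subst r1
    subst r2
    subst r3
    have a1 : (2 * lam + 1) * (2 * (k' + 1)) = (2 * lam + 1) * (k' + 1 + (j + 2)) := by nlinarith
    have a2 := Nat.eq_of_mul_eq_mul_left (by omega) a1
    have a3 : j + 2 = k' + 1 := by omega
    have a4 : k' + j + 2 = 2 * k' + 1 := by omega
    rw [a4] at h5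
    have a5 : (2 * lam + 1) * k' = lam * (2 * k') + k' := by ring
    have a6 : lam * (2 * k' + 1) = lam * (2 * k') + lam := by ring
    refine ⟨rfl, rfl, rfl, ?_, ?_⟩ <;> omega

end Q123.SD
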