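import Pool.Agent.Q123.ST.Main

/-!
Block designs closed under Boolean operations.
-/

set_option autoImplicit false

open Finset Q123.CC Q123.ST

namespace Q123.SD

variable {v k lam : ℕ} {F : Finset (Finset (Fin v))}

/-- `F` is the set of blocks of a `2-(v, k, lam)` design without repeated blocks -/
def IsDesign (v k lam : ℕ) (F : Finset (Finset (Fin v))) : Prop :=
  (∀ B ∈ F, B.card = k) ∧ ∀ x y : Fin v, x ≠ y → (F.filter fun B => x ∈ B ∧ y ∈ B).card = lam

/-- number of blocks through a point -/
lemma repl (h : IsDesign v k lam F) (x : Fin v) :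
    (F.filter fun B => x ∈ B).card * (k - 1) = lam * (v - 1) := by
  classical
  have h1 : ∑ y ∈ univ.erase x, (F.filter fun B => x ∈ B ∧ y ∈ B).card = lam * (v - 1) := by
    rw [sum_congr rfl fun y hy => h.2 x y (ne_of_mem_erase hy).symm, sum_const,
      card_erase_of_mem (mem_univ _), card_univ, Fintype.card_fin, smul_eq_mul, mul_comm]
  have h2 : ∑ y ∈ univ.erase x, (F.filter fun B => x ∈ B ∧ y ∈ B).card =
      ∑ B ∈ F.filter (fun B => x ∈ B), (B.erase x).card := by
    simp_rw [card_filter]
    rw [sum_comm, sum_filter]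
    apply sum_congr rfl
    intro B _
    by_cases hx : x ∈ B
    · rw [if_pos hx, ← sum_filter, ← card_eq_sum_ones]
      congr 1
      ext y
      simp only [mem_filter, mem_erase, mem_univ, and_true]
      tauto
    · rw [if_neg hx]
      apply sum_eq_zero
      intro y _
      rw [if_neg fun hh => hx hh.1]
  have h3 : ∑ B ∈ F.filter (fun B => x ∈ B), (B.erase x).card =
      (F.filter fun B => x ∈ B).card * (k - 1) := by
    rw [sum_congr rfl (g := fun _ => k - 1), sum_const, smul_eq_mul]
    intro B hB
    rw [mem_filter] at hB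
    rw [card_erase_of_mem hB.2, h.1 B hB.1]
  rw [← h3, ← h2, h1]

lemma total (h : IsDesign v k lam F) :
    F.card * k = ∑ x : Fin v, (F.filter fun B => x ∈ B).card := by
  classical
  simp_rw [card_filter]
  rw [sum_comm, sum_congr rfl (g := fun _ => k), sum_const, smul_eq_mul]
  intro B hB
  rw [← sum_filter, ← card_eq_sum_ones, ← h.1 B hB]
  congr 1
  ext y
  simp

/-- the numbers of the design -/
theorem numbers (h : IsDesign v k lam F) (hl : 1 ≤ lam) (hk : 2 ≤ k) (hkv : k + 2 ≤ v) :
    ∃ r : ℕ, (∀ x, (F.filter fun B => x ∈ B).card = r) ∧ F.card * k = v * r ∧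
      r * (k - 1) = lam * (v - 1) ∧ lam < r ∧ 2 * r < F.card + lam := by
  obtain ⟨x0⟩ : Nonempty (Fin v) := ⟨⟨0, by omega⟩⟩
  refine ⟨(F.filter fun B => x0 ∈ B).card, ?_, ?_, repl h x0, ?_, ?_⟩
  · intro x
    have h1 := repl h x
    rw [← repl h x0] at h1
    exact Nat.eq_of_mul_eq_mul_right (by omega) h1
  · rw [total h, sum_congr rfl (g := fun _ => (F.filter fun B => x0 ∈ B).card), sum_const,
      card_univ, Fintype.card_fin, smul_eq_mul]
    intro x _
    have h1 := repl h x
    rw [← repl h x0] at h1
    exact Nat.eq_of_mul_eq_mul_right (by omega) h1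
  · by_contra hcon
    push Not at hcon
    have h1 := repl h x0
    have h2 : (F.filter fun B => x0 ∈ B).card * (k - 1) ≤ lam * (k - 1) :=
      Nat.mul_le_mul_right _ hcon
    have h3 : lam * (k - 1) < lam * (v - 1) := Nat.mul_lt_mul_of_pos_left (by omega) (by omega)
    omega
  · have h1 := repl h x0
    have h2 : F.card * k = v * (F.filter fun B => x0 ∈ B).card := by
      rw [total h, sum_congr rfl (g := fun _ => (F.filter fun B => x0 ∈ B).card), sum_const,
        card_univ, Fintype.card_fin, smul_eq_mul]
      intro x _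
      have h1 := repl h x
      rw [← repl h x0] at h1
      exact Nat.eq_of_mul_eq_mul_right (by omega) h1
    have hr : 0 < (F.filter fun B => x0 ∈ B).card := by
      rcases Nat.eq_zero_or_pos (F.filter fun B => x0 ∈ B).card with h3 | h3
      · rw [h3, Nat.zero_mul] at h1
        have := Nat.mul_pos (show 0 < lam by omega) (show 0 < v - 1 by omega)
        omega
      · exact h3
    generalize (F.filter fun B => x0 ∈ B).card = r at h1 h2 hr
    generalize F.card = b at h2
    obtain ⟨k', rfl⟩ : ∃ k', k = k' + 1 := ⟨k - 1, by omega⟩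
    obtain ⟨j, rfl⟩ : ∃ j, v = k' + 1 + (j + 2) := ⟨v - k' - 3, by omega⟩
    have e1 : k' + 1 - 1 = k' := by omega
    have e2 : k' + 1 + (j + 2) - 1 = k' + j + 2 := by omega
    rw [e1, e2] at h1
    by_contra hcon
    push Not at hcon
    -- `k (v - 1) (b + lam) = 2 r k (v - 1) + r (v - k) (v - k - 1)`
    have h3 : (k' + 1) * (k' + j + 2) * (b + lam) =
        (k' + 1) * (k' + j + 2) * (2 * r) + r * ((j + 2) * (j + 1)) := by
      have h4 : (k' + 1) * (k' + j + 2) * (b + lam) =
          (b * (k' + 1)) * (k' + j + 2) + (k' + 1) * (lam * (k' + j + 2)) := by ring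
      rw [h4, h2, ← h1]
      ring
    have h5 : (k' + 1) * (k' + j + 2) * (b + lam) ≤ (k' + 1) * (k' + j + 2) * (2 * r) :=
      Nat.mul_le_mul_left _ hcon
    have h6 : 0 < r * ((j + 2) * (j + 1)) := by positivity
    omega

/-- all four patterns occur at two points -/
theorem patterns (h : IsDesign v k lam F) (hl : 1 ≤ lam) (hk : 2 ≤ k) (hkv : k + 2 ≤ v)
    {x y : Fin v} (hxy : x ≠ y) (p q : Prop) [Decidable p] [Decidable q] :
    ∃ B ∈ F, (x ∈ B ↔ p) ∧ (y ∈ B ↔ q) := by
  classical
  obtain ⟨r, hr, -, -, h1, h2⟩ := numbers h hl hk hkv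
  have e0 := h.2 x y hxy
  have ex := hr x
  have ey := hr y
  have s1 : (F.filter fun B => x ∈ B).card = (F.filter fun B => x ∈ B ∧ y ∈ B).card +
      (F.filter fun B => x ∈ B ∧ y ∉ B).card := by
    rw [← card_filter_add_card_filter_not (s := F.filter fun B => x ∈ B) (p := fun B => y ∈ B),
      filter_filter, filter_filter]
  have s2 : (F.filter fun B => y ∈ B).card = (F.filter fun B => x ∈ B ∧ y ∈ B).card +
      (F.filter fun B => x ∉ B ∧ y ∈ B).card := by
    rw [← card_filter_add_card_filter_not (s := F.filter fun B => y ∈ B) (p := fun B => x ∈ B),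
      filter_filter, filter_filter]
    congr 2
    · ext B
      simp only [mem_filter]
      tauto
    · ext B
      simp only [mem_filter]
      tauto
  have s3 : F.card = (F.filter fun B => y ∈ B).card + (F.filter fun B => x ∈ B ∧ y ∉ B).card +
      (F.filter fun B => x ∉ B ∧ y ∉ B).card := by
    rw [← card_filter_add_card_filter_not (s := F) (p := fun B => y ∈ B),
      ← card_filter_add_card_filter_not (s := F.filter fun B => ¬ y ∈ B) (p := fun B => x ∈ B),
      filter_filter, filter_filter, add_assoc]
    congr 3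
    · ext B
      simp only [mem_filter]
      tauto
    · ext B
      simp only [mem_filter]
      tauto
  by_cases hp : p <;> by_cases hq : q
  · obtain ⟨B, hB⟩ := card_pos.1 (show 0 < (F.filter fun B => x ∈ B ∧ y ∈ B).card by omega)
    rw [mem_filter] at hB
    exact ⟨B, hB.1, iff_of_true hB.2.1 hp, iff_of_true hB.2.2 hq⟩
  · obtain ⟨B, hB⟩ := card_pos.1 (show 0 < (F.filter fun B => x ∈ B ∧ y ∉ B).card by omega)
    rw [mem_filter] at hB
    exact ⟨B, hB.1, iff_of_true hB.2.1 hp, iff_of_false hB.2.2 hq⟩
  · obtain ⟨B, hB⟩ := card_pos.1 (show 0 < (F.filter fun B => x ∉ B ∧ y ∈ B).card by omega)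
    rw [mem_filter] at hB
    exact ⟨B, hB.1, iff_of_false hB.2.1 hp, iff_of_true hB.2.2 hq⟩
  · obtain ⟨B, hB⟩ := card_pos.1 (show 0 < (F.filter fun B => x ∉ B ∧ y ∉ B).card by omega)
    rw [mem_filter] at hB
    exact ⟨B, hB.1, iff_of_false hB.2.1 hp, iff_of_false hB.2.2 hq⟩

/-- in terms of words -/
theorem patterns_word (h : IsDesign v k lam F) (hl : 1 ≤ lam) (hk : 2 ≤ k) (hkv : k + 2 ≤ v)
    (E : Finset (Finset (Fin v))) {x y : Fin v} (hxy : x ≠ y) (s t : ZMod 2) :
    ∃ w ∈ (F ∪ E).image word, w x = s ∧ w y = t := by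
  obtain ⟨B, hB, h1, h2⟩ := patterns h hl hk hkv hxy (s = 1) (t = 1)
  refine ⟨word B, mem_image_of_mem _ (mem_union_left _ hB), ?_, ?_⟩
  · unfold word
    by_cases hx : x ∈ B
    · rw [if_pos hx, h1.1 hx]
    · rw [if_neg hx]
      rcases zcases s with hs | hs
      · exact hs.symm
      · exact absurd (h1.2 hs) hx
  · unfold word
    by_cases hy : y ∈ B
    · rw [if_pos hy, h2.1 hy]
    · rw [if_neg hy]
      rcases zcases t with hs | hs
      · exact hs.symm
      · exact absurd (h2.2 hs) hy

/-- **Operations that are not affine.** -/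
theorem not_target (h : IsDesign v k lam F) (hl : 1 ≤ lam) (hk : 2 ≤ k) (hkv : k + 2 ≤ v)
    {E : Finset (Finset (Fin v))} (hE : E ⊆ {∅, univ}) :
    ¬ Target ((F ∪ E).image word) := by
  classical
  have hun : (univ : Finset (Fin v)).card = v := by rw [card_univ, Fintype.card_fin]
  have m : ∀ B ∈ F, word B ∈ (F ∪ E).image word := fun B hB =>
    mem_image_of_mem _ (mem_union_left _ hB)
  obtain ⟨x, y, hxy⟩ : ∃ x y : Fin v, x ≠ y :=
    ⟨⟨0, by omega⟩, ⟨1, by omega⟩, by simp [Fin.ext_iff]⟩
  rintro (hT | hT | hT)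
  · obtain ⟨B, hB, hxB, hyB⟩ := patterns h hl hk hkv hxy True True
    obtain ⟨B', hB', hxB', hyB'⟩ := patterns h hl hk hkv hxy True False
    have hxB := hxB.2 trivial
    have hyB := hyB.2 trivial
    have hxB' := hxB'.2 trivial
    have hyB' : y ∉ B' := fun hh => hyB'.1 hh
    have h1 := mem_word (hT _ (m B hB) _ (m B' hB')) (word_inter B B')
    rcases mem_cases hE h1 with h2 | h2 | h2
    · have h3 : B ∩ B' = B := eq_of_subset_of_card_le inter_subset_left
        (by rw [h.1 _ h2, h.1 _ hB])
      rw [← h3] at hyB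
      exact hyB' (mem_inter.1 hyB).2
    · have : x ∈ B ∩ B' := mem_inter.2 ⟨hxB, hxB'⟩
      rw [h2] at this
      exact absurd this (notMem_empty _)
    · have : y ∈ B ∩ B' := by rw [h2]; exact mem_univ _
      exact hyB' (mem_inter.1 this).2
  · obtain ⟨B, hB, hxB, hyB⟩ := patterns h hl hk hkv hxy False False
    obtain ⟨B', hB', hxB', hyB'⟩ := patterns h hl hk hkv hxy False True
    have hxB : x ∉ B := fun hh => hxB.1 hh
    have hyB : y ∉ B := fun hh => hyB.1 hh
    have hxB' : x ∉ B' := fun hh => hxB'.1 hh
    have hyB' := hyB'.2 trivial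
    have h1 := mem_word (hT _ (m B hB) _ (m B' hB')) (word_union B B')
    rcases mem_cases hE h1 with h2 | h2 | h2
    · have h3 : B = B ∪ B' := eq_of_subset_of_card_le subset_union_left
        (by rw [h.1 _ h2, h.1 _ hB])
      rw [h3] at hyB
      exact hyB (mem_union_right _ hyB')
    · have : y ∈ B ∪ B' := mem_union_right _ hyB'
      rw [h2] at this
      exact absurd this (notMem_empty _)
    · have : x ∈ B ∪ B' := by rw [h2]; exact mem_univ _
      rcases mem_union.1 this with h3 | h3
      · exact hxB h3
      · exact hxB' h3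
  · -- majority: every pattern on every set of points occurs
    have key : ∀ (n : ℕ) (S : Finset (Fin v)), S.card = n → ∀ a : Fin v → ZMod 2,
        ∃ w ∈ (F ∪ E).image word, ∀ i ∈ S, w i = a i := by
      intro n
      induction n with
      | zero =>
        intro S hS a
        rw [card_eq_zero] at hS
        obtain ⟨w, hw, -, -⟩ := patterns_word h hl hk hkv E hxy 0 0
        exact ⟨w, hw, fun i hi => by rw [hS] at hi; exact absurd hi (notMem_empty _)⟩
      | succ n ih =>
        intro S hS a
        rcases Nat.lt_or_ge n 2 with hn | hn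
        · -- at most two points
          rcases Nat.lt_or_ge n 1 with hn1 | hn1
          · obtain ⟨i, hi⟩ := card_eq_one.1 (show S.card = 1 by omega)
            obtain ⟨j, hj⟩ : ∃ j, i ≠ j := by
              by_cases hix : i = x
              · exact ⟨y, by rw [hix]; exact hxy⟩
              · exact ⟨x, hix⟩
            obtain ⟨w, hw, h1, -⟩ := patterns_word h hl hk hkv E hj (a i) 0
            refine ⟨w, hw, ?_⟩
            intro l hl
            rw [hi, mem_singleton] at hl
            rw [hl]
            exact h1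
          · obtain ⟨i, j, hij, hS'⟩ := card_eq_two.1 (show S.card = 2 by omega)
            obtain ⟨w, hw, h1, h2⟩ := patterns_word h hl hk hkv E hij (a i) (a j)
            refine ⟨w, hw, ?_⟩
            intro l hl
            rw [hS', mem_insert, mem_singleton] at hl
            rcases hl with rfl | rfl
            · exact h1
            · exact h2
        · obtain ⟨i, j, l, hi, hj, hl', hij, hil, hjl⟩ := two_lt_card_iff.1
            (show 2 < S.card by omega)
          obtain ⟨w1, hw1, e1⟩ := ih (S.erase i) (by rw [card_erase_of_mem hi, hS]; rfl) a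
          obtain ⟨w2, hw2, e2⟩ := ih (S.erase j) (by rw [card_erase_of_mem hj, hS]; rfl) a
          obtain ⟨w3, hw3, e3⟩ := ih (S.erase l) (by rw [card_erase_of_mem hl', hS]; rfl) a
          refine ⟨_, hT w1 hw1 w2 hw2 w3 hw3, ?_⟩
          intro z hz
          simp only [Pi.add_apply, Pi.mul_apply]
          have maj : ∀ s t : ZMod 2, (s * s + s * t + t * s = s) ∧ (s * t + t * s + s * s = s) ∧
              (t * s + s * s + s * t = s) := by decide
          by_cases h1 : z = i
          · have a2 := e2 z (mem_erase.2 ⟨by rw [h1]; exact hij, hz⟩)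
            have a3 := e3 z (mem_erase.2 ⟨by rw [h1]; exact hil, hz⟩)
            rw [a2, a3]
            exact (maj (a z) (w1 z)).2.2
          · have a1 := e1 z (mem_erase.2 ⟨h1, hz⟩)
            by_cases h2 : z = j
            · have a3 := e3 z (mem_erase.2 ⟨by rw [h2]; exact hjl, hz⟩)
              rw [a1, a3]
              exact (maj (a z) (w2 z)).2.1
            · have a2 := e2 z (mem_erase.2 ⟨h2, hz⟩)
              rw [a1, a2]
              exact (maj (a z) (w3 z)).1
    obtain ⟨w, hw, h1⟩ := key v univ hun (word {x})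
    have h2 : w = word {x} := funext fun i => h1 i (mem_univ _)
    have h3 := mem_word hw h2
    rcases mem_cases hE h3 with h4 | h4 | h4
    · have := h.1 _ h4
      rw [card_singleton] at this
      omega
    · exact absurd h4 (singleton_ne_empty _)
    · have := congrArg card h4
      rw [card_singleton, hun] at this
      omega

end Q123.SD
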