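import Pool.Agent.Q123.SD.Params

/-!
Hyperplanes of projective and affine spaces over the field with two elements.
-/

set_option autoImplicit false

open Finset Q123.CC Q123.ST

namespace Q123.SD

variable {m v : ℕ}

/-- the standard form -/
def dot (a x : Fin m → ZMod 2) : ZMod 2 := ∑ i, a i * x i

lemma dot_add (a b x : Fin m → ZMod 2) : dot (a + b) x = dot a x + dot b x := by
  unfold dot
  rw [← sum_add_distrib]
  apply sum_congr rfl
  intro i _
  rw [Pi.add_apply, add_mul]

lemma dot_comm (a x : Fin m → ZMod 2) : dot a x = dot x a := by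
  unfold dot
  apply sum_congr rfl
  intro i _
  rw [mul_comm]

lemma dot_add_right (a x y : Fin m → ZMod 2) : dot a (x + y) = dot a x + dot a y := by
  rw [dot_comm, dot_add, dot_comm x, dot_comm y]

lemma dot_zero (x : Fin m → ZMod 2) : dot 0 x = 0 := by
  unfold dot
  simp

lemma dot_zero_right (x : Fin m → ZMod 2) : dot x 0 = 0 := by
  rw [dot_comm, dot_zero]

lemma dot_single (i : Fin m) (x : Fin m → ZMod 2) : dot (Pi.single i 1) x = x i := by
  unfold dot
  rw [sum_eq_single i]
  · rw [Pi.single_eq_same, one_mul]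
  · intro j _ hj
    rw [Pi.single_eq_of_ne hj, zero_mul]
  · intro h
    exact absurd (mem_univ _) h

lemma dot_sum {ι : Type*} (s : Finset ι) (a : ι → Fin m → ZMod 2) (x : Fin m → ZMod 2) :
    dot (∑ i ∈ s, a i) x = ∑ i ∈ s, dot (a i) x := by
  classical
  induction s using Finset.induction_on with
  | empty => rw [sum_empty, sum_empty, dot_zero]
  | insert i s hi ih => rw [sum_insert hi, sum_insert hi, dot_add, ih]

lemma exists_dot {z : Fin m → ZMod 2} (hz : z ≠ 0) : ∃ b, dot b z = 1 := by
  by_contra hcon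
  push Not at hcon
  apply hz
  funext i
  have h1 := hcon (Pi.single i 1)
  rw [dot_single] at h1
  exact (zcases _).resolve_right h1

lemma cnt {z : Fin m → ZMod 2} (hz : z ≠ 0) (s : ZMod 2) :
    2 * (univ.filter fun a : Fin m → ZMod 2 => dot a z = s).card = 2 ^ m := by
  obtain ⟨b, hb⟩ := exists_dot hz
  have hbb : b + b = 0 := by
    funext i
    exact CharTwo.add_self_eq_zero (b i)
  have h1 : ∀ s : ZMod 2, (univ.filter fun a : Fin m → ZMod 2 => dot a z = s).card ≤
      (univ.filter fun a : Fin m → ZMod 2 => dot a z = s + 1).card := by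
    intro s
    apply card_le_card_of_injOn (fun a => a + b)
    · intro a ha
      rw [mem_coe, mem_filter] at ha ⊢
      refine ⟨mem_univ _, ?_⟩
      show dot (a + b) z = s + 1
      rw [dot_add, ha.2, hb]
    · intro a _ a' _ haa
      exact add_right_cancel haa
  have h2 : (univ.filter fun a : Fin m → ZMod 2 => dot a z = s).card =
      (univ.filter fun a : Fin m → ZMod 2 => dot a z = s + 1).card := by
    apply le_antisymm (h1 s)
    have h3 := h1 (s + 1)
    rw [add_assoc, CharTwo.add_self_eq_zero, add_zero] at h3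
    exact h3
  have h3 : (univ : Finset (Fin m → ZMod 2)).card =
      (univ.filter fun a : Fin m → ZMod 2 => dot a z = s).card +
        (univ.filter fun a : Fin m → ZMod 2 => dot a z = s + 1).card := by
    rw [← card_filter_add_card_filter_not (s := (univ : Finset (Fin m → ZMod 2)))
      (p := fun a => dot a z = s)]
    congr 2
    ext a
    rw [mem_filter, mem_filter]
    have : ∀ t s : ZMod 2, ¬ t = s ↔ t = s + 1 := by decide
    rw [this]
  rw [← h2, card_univ, Fintype.card_fun, ZMod.card, Fintype.card_fin] at h3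
  omega

lemma add_ne_zero' {x y : Fin m → ZMod 2} (h : x ≠ y) : x + y ≠ 0 := by
  intro h1
  apply h
  funext i
  have h2 := congrFun h1 i
  rw [Pi.add_apply, Pi.zero_apply] at h2
  have : ∀ s t : ZMod 2, s + t = 0 → s = t := by decide
  exact this _ _ h2

lemma cnt11 {x y : Fin m → ZMod 2} (hx : x ≠ 0) (hy : y ≠ 0) (hxy : x ≠ y) :
    4 * (univ.filter fun a : Fin m → ZMod 2 => dot a x = 1 ∧ dot a y = 1).card = 2 ^ m := by
  have h1 := cnt hx 1
  have h2 := cnt hy 1
  have h3 := cnt (add_ne_zero' hxy) 1
  have h4 : (univ.filter fun a : Fin m → ZMod 2 => dot a x = 1).card +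
      (univ.filter fun a : Fin m → ZMod 2 => dot a y = 1).card =
      (univ.filter fun a : Fin m → ZMod 2 => dot a (x + y) = 1).card +
        2 * (univ.filter fun a : Fin m → ZMod 2 => dot a x = 1 ∧ dot a y = 1).card := by
    simp_rw [card_filter]
    rw [mul_sum, ← sum_add_distrib, ← sum_add_distrib]
    apply sum_congr rfl
    intro a _
    rw [dot_add_right]
    have : ∀ s t : ZMod 2, (if s = 1 then 1 else 0) + (if t = 1 then 1 else 0) =
        (if s + t = 1 then 1 else 0) + 2 * (if s = 1 ∧ t = 1 then 1 else 0) := by decide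
    exact this _ _
  omega

lemma cnt00 {x y : Fin m → ZMod 2} (hx : x ≠ 0) (hy : y ≠ 0) (hxy : x ≠ y) :
    4 * (univ.filter fun a : Fin m → ZMod 2 => dot a x = 0 ∧ dot a y = 0).card = 2 ^ m := by
  have h1 := cnt hx 1
  have h2 := cnt hy 0
  have h3 := cnt11 hx hy hxy
  have h4 : (univ.filter fun a : Fin m → ZMod 2 => dot a x = 0 ∧ dot a y = 0).card +
      (univ.filter fun a : Fin m → ZMod 2 => dot a x = 1).card =
      (univ.filter fun a : Fin m → ZMod 2 => dot a y = 0).card +
        (univ.filter fun a : Fin m → ZMod 2 => dot a x = 1 ∧ dot a y = 1).card := by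
    simp_rw [card_filter]
    rw [← sum_add_distrib, ← sum_add_distrib]
    apply sum_congr rfl
    intro a _
    have : ∀ s t : ZMod 2, (if s = 0 ∧ t = 0 then 1 else 0) + (if s = 1 then 1 else 0) =
        (if t = 0 then 1 else 0) + (if s = 1 ∧ t = 1 then 1 else 0) := by decide
    exact this _ _
  omega

/-- the sets `c + <a, x> = 1` -/
def block (π : Fin v → Fin m → ZMod 2) (a : Fin m → ZMod 2) (c : ZMod 2) : Finset (Fin v) :=
  univ.filter fun p => c + dot a (π p) = 1

lemma word_block (π : Fin v → Fin m → ZMod 2) (a : Fin m → ZMod 2) (c : ZMod 2) :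
    word (block π a c) = fun p => c + dot a (π p) := by
  funext p
  unfold word block
  rcases zcases (c + dot a (π p)) with h | h
  · rw [if_neg (by rw [mem_filter, h]; simp), h]
  · rw [if_pos (by rw [mem_filter]; exact ⟨mem_univ _, h⟩), h]

lemma mem_block {π : Fin v → Fin m → ZMod 2} {a : Fin m → ZMod 2} {c : ZMod 2} {p : Fin v} :
    p ∈ block π a c ↔ c + dot a (π p) = 1 := by
  unfold block
  rw [mem_filter]
  exact ⟨fun h => h.2, fun h => ⟨mem_univ _, h⟩⟩

lemma block_zero (π : Fin v → Fin m → ZMod 2) : block π 0 0 = ∅ := by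
  ext p
  rw [mem_block, dot_zero, add_zero]
  exact iff_of_false (by decide) (notMem_empty _)

lemma block_one (π : Fin v → Fin m → ZMod 2) : block π 0 1 = univ := by
  ext p
  rw [mem_block, dot_zero, add_zero]
  exact iff_of_true rfl (mem_univ _)

lemma eq_of_dot {a a' : Fin m → ZMod 2} (h : ∀ x : Fin m → ZMod 2, x ≠ 0 → dot a x = dot a' x) :
    a = a' := by
  funext i
  have h1 := h (Pi.single i 1) (by
    intro h2
    have h3 := congrFun h2 i
    rw [Pi.single_eq_same, Pi.zero_apply] at h3
    exact absurd h3 (by decide))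
  rw [dot_comm, dot_single, dot_comm, dot_single] at h1
  exact h1

section projective

variable (e : Fin v ≃ {x : Fin m → ZMod 2 // x ≠ 0})

lemma card_pull (P : (Fin m → ZMod 2) → Prop) [DecidablePred P] :
    (univ.filter fun p : Fin v => P (e p).1).card =
      (univ.filter fun x : Fin m → ZMod 2 => x ≠ 0 ∧ P x).card := by
  apply card_bij (fun p _ => (e p).1)
  · intro p hp
    rw [mem_filter] at hp ⊢
    exact ⟨mem_univ _, (e p).2, hp.2⟩
  · intro p _ p' _ h
    exact e.injective (Subtype.ext h)
  · intro x hx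
    rw [mem_filter] at hx
    refine ⟨e.symm ⟨x, hx.2.1⟩, ?_, ?_⟩
    · rw [mem_filter]
      refine ⟨mem_univ _, ?_⟩
      rw [Equiv.apply_symm_apply]
      exact hx.2.2
    · show (e (e.symm ⟨x, hx.2.1⟩)).1 = x
      rw [Equiv.apply_symm_apply]

/-- projective family -/
def famP (c : ZMod 2) : Finset (Finset (Fin v)) :=
  (univ.filter fun a : Fin m → ZMod 2 => a ≠ 0).image fun a => block (fun p => (e p).1) a c

lemma block_inj (c : ZMod 2) : Function.Injective (fun a => block (fun p => (e p).1) a c) := by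
  intro a a' h
  apply eq_of_dot
  intro x hx
  have h1 : word (block (fun p => (e p).1) a c) = word (block (fun p => (e p).1) a' c) := by
    show word ((fun a => block (fun p => (e p).1) a c) a) = _
    rw [h]
  rw [word_block, word_block] at h1
  have h2 := congrFun h1 (e.symm ⟨x, hx⟩)
  rw [Equiv.apply_symm_apply] at h2
  exact add_left_cancel h2

lemma pairs (c : ZMod 2) (p q : Fin v) :
    ((famP e c).filter fun B => p ∈ B ∧ q ∈ B).card =
      (univ.filter fun a : Fin m → ZMod 2 => a ≠ 0 ∧
        (c + dot a (e p).1 = 1 ∧ c + dot a (e q).1 = 1)).card := by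
  unfold famP
  rw [filter_image, card_image_of_injective _ (block_inj e c), filter_filter]
  congr 1
  apply filter_congr
  intro a _
  rw [mem_block, mem_block]

lemma one_add_eq_one {t : ZMod 2} : 1 + t = 1 ↔ t = 0 := by
  revert t
  decide

lemma design_zero (hm : 2 ≤ m) : IsDesign v (2 ^ (m - 1)) (2 ^ (m - 2)) (famP e 0) := by
  have e1 : (2 : ℕ) ^ m = 2 * 2 ^ (m - 1) := by
    conv_lhs => rw [show m = 1 + (m - 1) by omega, pow_add, pow_one]
  have e2 : (2 : ℕ) ^ m = 4 * 2 ^ (m - 2) := by
    conv_lhs => rw [show m = 2 + (m - 2) by omega, pow_add]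
    norm_num
  constructor
  · intro B hB
    obtain ⟨a, ha, rfl⟩ := mem_image.1 hB
    rw [mem_filter] at ha
    have h1 := card_pull e (fun x => 0 + dot a x = 1)
    have h2 : (univ.filter fun x : Fin m → ZMod 2 => x ≠ 0 ∧ 0 + dot a x = 1) =
        univ.filter fun x : Fin m → ZMod 2 => dot x a = 1 := by
      apply filter_congr
      intro x _
      rw [zero_add, dot_comm a x]
      constructor
      · exact fun h => h.2
      · intro h
        refine ⟨?_, h⟩
        rintro rfl
        rw [dot_zero] at h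
        exact absurd h (by decide)
    rw [h2] at h1
    have h3 := cnt ha.2 1
    show (univ.filter fun p : Fin v => 0 + dot a (e p).1 = 1).card = _
    omega
  · intro p q hpq
    rw [pairs]
    have h1 := cnt11 (e p).2 (e q).2 (fun h => hpq (e.injective (Subtype.ext h)))
    have h2 : (univ.filter fun a : Fin m → ZMod 2 => a ≠ 0 ∧
        (0 + dot a (e p).1 = 1 ∧ 0 + dot a (e q).1 = 1)) =
        univ.filter fun a : Fin m → ZMod 2 => dot a (e p).1 = 1 ∧ dot a (e q).1 = 1 := by
      apply filter_congr
      intro a _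
      rw [zero_add, zero_add]
      constructor
      · exact fun h => h.2
      · intro h
        refine ⟨?_, h⟩
        rintro rfl
        rw [dot_zero] at h
        exact absurd h.1 (by decide)
    rw [h2]
    omega

lemma card_and_ne {P : (Fin m → ZMod 2) → Prop} [DecidablePred P] (h0 : P 0) :
    (univ.filter fun a : Fin m → ZMod 2 => a ≠ 0 ∧ P a).card + 1 =
      (univ.filter fun a : Fin m → ZMod 2 => P a).card := by
  have h1 : (univ.filter fun a : Fin m → ZMod 2 => a ≠ 0 ∧ P a) =
      (univ.filter fun a : Fin m → ZMod 2 => P a).erase 0 := by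
    ext a
    rw [mem_filter, mem_erase, mem_filter]
    tauto
  rw [h1, card_erase_add_one]
  rw [mem_filter]
  exact ⟨mem_univ _, h0⟩

lemma design_one (hm : 2 ≤ m) :
    IsDesign v (2 ^ (m - 1) - 1) (2 ^ (m - 2) - 1) (famP e 1) := by
  have e1 : (2 : ℕ) ^ m = 2 * 2 ^ (m - 1) := by
    conv_lhs => rw [show m = 1 + (m - 1) by omega, pow_add, pow_one]
  have e2 : (2 : ℕ) ^ m = 4 * 2 ^ (m - 2) := by
    conv_lhs => rw [show m = 2 + (m - 2) by omega, pow_add]
    norm_num
  constructor
  · intro B hB
    obtain ⟨a, ha, rfl⟩ := mem_image.1 hB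
    rw [mem_filter] at ha
    have h1 := card_pull e (fun x => 1 + dot a x = 1)
    have h2 := card_and_ne (P := fun x => 1 + dot a x = 1) (by rw [dot_zero_right, add_zero])
    have h4 : (univ.filter fun x : Fin m → ZMod 2 => 1 + dot a x = 1) =
        univ.filter fun x : Fin m → ZMod 2 => dot x a = 0 := by
      apply filter_congr
      intro x _
      rw [one_add_eq_one, dot_comm]
    rw [h4] at h2
    have h3 := cnt ha.2 0
    show (univ.filter fun p : Fin v => 1 + dot a (e p).1 = 1).card = _
    omega
  · intro p q hpq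
    rw [pairs]
    have h1 := cnt00 (e p).2 (e q).2 (fun h => hpq (e.injective (Subtype.ext h)))
    have h2 := card_and_ne (P := fun a => 1 + dot a (e p).1 = 1 ∧ 1 + dot a (e q).1 = 1)
      (by rw [dot_zero, dot_zero]; decide)
    have h4 : (univ.filter fun a : Fin m → ZMod 2 =>
        1 + dot a (e p).1 = 1 ∧ 1 + dot a (e q).1 = 1) =
        univ.filter fun a : Fin m → ZMod 2 => dot a (e p).1 = 0 ∧ dot a (e q).1 = 0 := by
      apply filter_congr
      intro a _
      rw [one_add_eq_one, one_add_eq_one]
    rw [h4] at h2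
    omega

lemma words_P (c : ZMod 2) :
    (famP e c ∪ {block (fun p => (e p).1) 0 c}).image word =
      univ.image fun (a : Fin m → ZMod 2) (p : Fin v) => c + dot a (e p).1 := by
  ext w
  rw [mem_image, mem_image]
  constructor
  · rintro ⟨B, hB, rfl⟩
    rcases mem_union.1 hB with h | h
    · obtain ⟨a, -, rfl⟩ := mem_image.1 h
      exact ⟨a, mem_univ _, (word_block _ _ _).symm⟩
    · rw [mem_singleton] at h
      rw [h]
      exact ⟨0, mem_univ _, (word_block _ _ _).symm⟩
  · rintro ⟨a, -, rfl⟩
    refine ⟨block (fun p => (e p).1) a c, ?_, word_block _ _ _⟩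
    by_cases ha : a = 0
    · rw [ha]
      exact mem_union_right _ (mem_singleton_self _)
    · exact mem_union_left _ (mem_image.2 ⟨a, by rw [mem_filter]; exact ⟨mem_univ _, ha⟩, rfl⟩)

lemma closed_P {k : ℕ} {f : (Fin k → ZMod 2) → ZMod 2} (hf : IsAffine f) (c : ZMod 2)
    (hc : f (fun _ => c) = c) :
    ClosedUnder f ((famP e c ∪ {block (fun p => (e p).1) 0 c}).image word) := by
  obtain ⟨c0, s, hfs⟩ := hf
  intro w hw
  rw [words_P] at hw ⊢
  have h1 : ∀ i, ∃ a : Fin m → ZMod 2, (fun p : Fin v => c + dot a (e p).1) = w i := by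
    intro i
    obtain ⟨a, -, ha⟩ := mem_image.1 (hw i)
    exact ⟨a, ha⟩
  choose a ha using h1
  refine mem_image.2 ⟨∑ i ∈ s, a i, mem_univ _, ?_⟩
  funext p
  rw [hfs, dot_sum]
  have h2 : ∑ i ∈ s, w i p = ∑ i ∈ s, c + ∑ i ∈ s, dot (a i) (e p).1 := by
    rw [← sum_add_distrib]
    apply sum_congr rfl
    intro i _
    rw [← ha i]
  rw [h2, ← add_assoc]
  congr 1
  have h3 := hfs (fun _ => c)
  rw [hc] at h3
  exact h3

end projective

section affine

variable (e : Fin v ≃ (Fin m → ZMod 2))

/-- affine family -/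
def famA : Finset (Finset (Fin v)) :=
  (univ.filter fun ac : (Fin m → ZMod 2) × ZMod 2 => ac.1 ≠ 0).image fun ac => block e ac.1 ac.2

lemma blockA_inj : Function.Injective
    (fun ac : (Fin m → ZMod 2) × ZMod 2 => block e ac.1 ac.2) := by
  rintro ⟨a, c⟩ ⟨a', c'⟩ h
  have h1 : word (block e a c) = word (block e a' c') := by
    show word ((fun ac : (Fin m → ZMod 2) × ZMod 2 => block e ac.1 ac.2) (a, c)) = _
    rw [h]
  rw [word_block, word_block] at h1
  have h2 : ∀ x, c + dot a x = c' + dot a' x := by
    intro x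
    have h3 := congrFun h1 (e.symm x)
    rw [Equiv.apply_symm_apply] at h3
    exact h3
  have h3 := h2 0
  rw [dot_zero_right, dot_zero_right, add_zero, add_zero] at h3
  subst h3
  have h4 : a = a' := eq_of_dot fun x _ => add_left_cancel (h2 x)
  rw [h4]

lemma design_A (hm : 1 ≤ m) : IsDesign v (2 ^ (m - 1)) (2 ^ (m - 1) - 1) (famA e) := by
  have e1 : (2 : ℕ) ^ m = 2 * 2 ^ (m - 1) := by
    conv_lhs => rw [show m = 1 + (m - 1) by omega, pow_add, pow_one]
  constructor
  · intro B hB
    obtain ⟨⟨a, c⟩, ha, rfl⟩ := mem_image.1 hB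
    rw [mem_filter] at ha
    have h1 : (univ.filter fun p : Fin v => c + dot a (e p) = 1).card =
        (univ.filter fun x : Fin m → ZMod 2 => dot x a = c + 1).card := by
      apply card_bij (fun p _ => e p)
      · intro p hp
        rw [mem_filter] at hp ⊢
        refine ⟨mem_univ _, ?_⟩
        rw [dot_comm]
        have : ∀ c t : ZMod 2, c + t = 1 → t = c + 1 := by decide
        exact this _ _ hp.2
      · intro p _ p' _ h
        exact e.injective h
      · intro x hx
        rw [mem_filter] at hx
        refine ⟨e.symm x, ?_, e.apply_symm_apply x⟩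
        rw [mem_filter]
        refine ⟨mem_univ _, ?_⟩
        rw [Equiv.apply_symm_apply, dot_comm, hx.2]
        have : ∀ c : ZMod 2, c + (c + 1) = 1 := by decide
        exact this c
    have h3 : 2 * (univ.filter fun x : Fin m → ZMod 2 => dot x a = c + 1).card = 2 ^ m :=
      cnt ha.2 (c + 1)
    show (univ.filter fun p : Fin v => c + dot a (e p) = 1).card = _
    omega
  · intro p q hpq
    have hne : e p ≠ e q := fun h => hpq (e.injective h)
    have h1 : ((famA e).filter fun B => p ∈ B ∧ q ∈ B).card =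
        (univ.filter fun ac : (Fin m → ZMod 2) × ZMod 2 => ac.1 ≠ 0 ∧
          (ac.2 + dot ac.1 (e p) = 1 ∧ ac.2 + dot ac.1 (e q) = 1)).card := by
      unfold famA
      rw [filter_image, card_image_of_injective _ (blockA_inj e), filter_filter]
      congr 1
      apply filter_congr
      intro a _
      rw [mem_block, mem_block]
    have h2 : (univ.filter fun ac : (Fin m → ZMod 2) × ZMod 2 => ac.1 ≠ 0 ∧
          (ac.2 + dot ac.1 (e p) = 1 ∧ ac.2 + dot ac.1 (e q) = 1)).card =
        (univ.filter fun a : Fin m → ZMod 2 => a ≠ 0 ∧ dot a (e p + e q) = 0).card := by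
      apply card_bij (fun ac _ => ac.1)
      · rintro ⟨a, c⟩ h
        rw [mem_filter] at h ⊢
        refine ⟨mem_univ _, h.2.1, ?_⟩
        rw [dot_add_right]
        have : ∀ c s t : ZMod 2, c + s = 1 → c + t = 1 → s + t = 0 := by decide
        exact this _ _ _ h.2.2.1 h.2.2.2
      · rintro ⟨a, c⟩ h ⟨a', c'⟩ h' haa
        rw [mem_filter] at h h'
        dsimp only at haa h h'
        subst haa
        have : ∀ c c' s : ZMod 2, c + s = 1 → c' + s = 1 → c = c' := by decide
        rw [this _ _ _ h.2.2.1 h'.2.2.1]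
      · intro a ha
        rw [mem_filter] at ha
        refine ⟨(a, 1 + dot a (e p)), ?_, rfl⟩
        rw [mem_filter]
        refine ⟨mem_univ _, ha.2.1, ?_, ?_⟩
        · dsimp only
          rw [add_assoc, CharTwo.add_self_eq_zero, add_zero]
        · have h3 := ha.2.2
          rw [dot_add_right] at h3
          dsimp only
          rw [add_assoc, h3, add_zero]
    rw [h1, h2]
    have h3 := card_and_ne (P := fun a : Fin m → ZMod 2 => dot a (e p + e q) = 0)
      (dot_zero _)
    have h4 := cnt (add_ne_zero' hne) 0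
    omega

lemma words_A :
    (famA e ∪ {∅, univ}).image word =
      univ.image fun (ac : (Fin m → ZMod 2) × ZMod 2) (p : Fin v) => ac.2 + dot ac.1 (e p) := by
  ext w
  rw [mem_image, mem_image]
  constructor
  · rintro ⟨B, hB, rfl⟩
    rcases mem_union.1 hB with h | h
    · obtain ⟨a, -, rfl⟩ := mem_image.1 h
      exact ⟨a, mem_univ _, (word_block _ _ _).symm⟩
    · rw [mem_insert, mem_singleton] at h
      rcases h with h | h
      · rw [h, ← block_zero e]
        exact ⟨(0, 0), mem_univ _, (word_block _ _ _).symm⟩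
      · rw [h, ← block_one e]
        exact ⟨(0, 1), mem_univ _, (word_block _ _ _).symm⟩
  · rintro ⟨⟨a, c⟩, -, rfl⟩
    refine ⟨block e a c, ?_, word_block _ _ _⟩
    by_cases ha : a = 0
    · apply mem_union_right
      rw [ha, mem_insert, mem_singleton]
      rcases zcases c with rfl | rfl
      · exact Or.inl (block_zero _)
      · exact Or.inr (block_one _)
    · exact mem_union_left _ (mem_image.2 ⟨(a, c), by rw [mem_filter]; exact ⟨mem_univ _, ha⟩, rfl⟩)

lemma closed_A {k : ℕ} {f : (Fin k → ZMod 2) → ZMod 2} (hf : IsAffine f) :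
    ClosedUnder f ((famA e ∪ {∅, univ}).image word) := by
  obtain ⟨c0, s, hfs⟩ := hf
  intro w hw
  rw [words_A] at hw ⊢
  have h1 : ∀ i, ∃ a : (Fin m → ZMod 2) × ZMod 2,
      (fun p : Fin v => a.2 + dot a.1 (e p)) = w i := by
    intro i
    obtain ⟨a, -, ha⟩ := mem_image.1 (hw i)
    exact ⟨a, ha⟩
  choose a ha using h1
  refine mem_image.2 ⟨(∑ i ∈ s, (a i).1, c0 + ∑ i ∈ s, (a i).2), mem_univ _, ?_⟩
  funext p
  dsimp only
  rw [hfs, dot_sum]
  have h2 : ∑ i ∈ s, w i p = ∑ i ∈ s, (a i).2 + ∑ i ∈ s, dot (a i).1 (e p) := by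
    rw [← sum_add_distrib]
    apply sum_congr rfl
    intro i _
    rw [← ha i]
  rw [h2, ← add_assoc]

end affine

end Q123.SD
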