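import Pool.Agent.Q123.SD.Examples

/-!
Designs closed under sets of Boolean operations.
-/

set_option autoImplicit false

open Finset Q123.CC Q123.ST

namespace Q123.SD

variable {v k lam : ℕ} {F : Finset (Finset (Fin v))}

theorem case_not_affine {Φ : ∀ k : ℕ, Set ((Fin k → ZMod 2) → ZMod 2)}
    (hΦ : ∃ k, ∃ f ∈ Φ k, ¬ IsAffine f) (h : IsDesign v k lam F) (hl : 1 ≤ lam) (hk : 2 ≤ k)
    (hkv : k + 2 ≤ v) : ¬ ClosedAll Φ F := by
  rintro ⟨E, hE, hC⟩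
  obtain ⟨k, f, hf, hna⟩ := hΦ
  exact not_target h hl hk hkv hE (target_of_closed hna _ (hC k f hf))

theorem case_negation {Φ : ∀ k : ℕ, Set ((Fin k → ZMod 2) → ZMod 2)}
    (hΦ : ∃ k, ∃ f ∈ Φ k, ∃ i, ∀ x, f x = 1 + x i)
    (h : IsDesign v k lam F) (hl : 1 ≤ lam) (hk : 2 ≤ k) (hkv : k + 2 ≤ v)
    (hC : ClosedAll Φ F) : v = 2 * k := by
  classical
  obtain ⟨E, hE, hC⟩ := hC
  obtain ⟨k', f, hf, i, hfi⟩ := hΦ
  obtain ⟨B, hB, -, -⟩ := patterns h hl hk hkv (x := ⟨0, by omega⟩) (y := ⟨1, by omega⟩)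
    (by simp [Fin.ext_iff]) True True
  have hun : (univ : Finset (Fin v)).card = v := by rw [card_univ, Fintype.card_fin]
  have hB0 := h.1 B hB
  have h1 := hC k' f hf (fun _ => word B) (fun _ => mem_image_of_mem _ (mem_union_left _ hB))
  have h2 : (fun j => f fun _ => word B j) = word Bᶜ := by
    funext j
    rw [hfi]
    unfold word
    by_cases hj : j ∈ B
    · rw [if_pos hj, if_neg (fun h => (mem_compl.1 h) hj)]
      decide
    · rw [if_neg hj, if_pos (mem_compl.2 hj)]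
      decide
  have h3 := mem_word h1 h2
  have h4 : Bᶜ.card = v - k := by rw [card_compl, Fintype.card_fin, hB0]
  rcases mem_cases hE h3 with h5 | h5 | h5
  · have := h.1 _ h5
    omega
  · rw [h5, card_empty] at h4
    omega
  · rw [h5, hun] at h4
    omega

/-- necessary conditions for sums -/
theorem necessary {Φ : ∀ k : ℕ, Set ((Fin k → ZMod 2) → ZMod 2)}
    (hΦ2 : ∃ k, ∃ f ∈ Φ k, Binary f) (h : IsDesign v k lam F) (hl : 1 ≤ lam) (hk : 2 ≤ k)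
    (hkv : k + 2 ≤ v) (hC : ClosedAll Φ F) :
    ((∃ m, lam = 2 ^ m) ∧ v + 1 = 4 * lam ∧ k = 2 * lam ∧ ∀ k, ∀ f ∈ Φ k, f (fun _ => 0) = 0) ∨
      ((∃ m, lam + 1 = 2 ^ m) ∧ v = 4 * lam + 3 ∧ k = 2 * lam + 1 ∧
        ∀ k, ∀ f ∈ Φ k, f (fun _ => 1) = 1) ∨
      ((∃ m, lam + 1 = 2 ^ m) ∧ v = 2 * lam + 2 ∧ k = lam + 1) := by
  classical
  obtain ⟨E, hE, hC⟩ := hC
  obtain ⟨k', f, hf, c, s, hs, hfs⟩ := hΦ2
  have hun : (univ : Finset (Fin v)).card = v := by rw [card_univ, Fintype.card_fin]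
  have hS := sum_closed hs hfs _ (hC k' f hf)
  have hne : ((F ∪ E).image word).Nonempty := by
    obtain ⟨w, hw, -, -⟩ := patterns_word h hl hk hkv E (x := ⟨0, by omega⟩) (y := ⟨1, by omega⟩)
      (by simp [Fin.ext_iff]) 0 0
    exact ⟨w, hw⟩
  have hpow := code_card hs hfs _ (hC k' f hf) hne
  rcases params h hl hk hkv hE hS hpow with ⟨h0, hV, h1, h2, h3⟩ | ⟨h0, hV, h1, h2, h3⟩ |
    ⟨h0, hV, h1, h2, h3⟩
  · left
    refine ⟨h1, h2, h3, ?_⟩
    intro k'' g hg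
    by_contra hcon
    have hg1 := (zcases _).resolve_left hcon
    have h4 := hC k'' g hg (fun _ => word ∅) (fun _ => mem_image_of_mem _ (mem_union_right _ h0))
    have h5 : (fun j => g fun _ => (word ∅ : Fin v → ZMod 2) j) = word univ := by
      funext j
      unfold word
      rw [if_neg (notMem_empty _), if_pos (mem_univ _)]
      exact hg1
    rcases mem_union.1 (mem_word h4 h5) with h6 | h6
    · have := h.1 _ h6
      omega
    · exact hV h6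
  · right
    left
    refine ⟨h1, h2, h3, ?_⟩
    intro k'' g hg
    by_contra hcon
    have hg1 := (zcases _).resolve_right hcon
    have h4 := hC k'' g hg (fun _ => word univ)
      (fun _ => mem_image_of_mem _ (mem_union_right _ hV))
    have h5 : (fun j => g fun _ => (word univ : Fin v → ZMod 2) j) = word ∅ := by
      funext j
      unfold word
      rw [if_neg (notMem_empty _), if_pos (mem_univ _)]
      exact hg1
    rcases mem_union.1 (mem_word h4 h5) with h6 | h6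
    · have := h.1 _ h6
      rw [card_empty] at this
      omega
    · exact h0 h6
  · right
    right
    exact ⟨h1, h2, h3⟩

lemma exists_equiv {m : ℕ} (h : v + 1 = 2 ^ m) :
    Nonempty (Fin v ≃ {x : Fin m → ZMod 2 // x ≠ 0}) := by
  classical
  rw [← Fintype.card_eq, Fintype.card_fin, Fintype.card_subtype_compl, Fintype.card_fun,
    ZMod.card, Fintype.card_fin, Fintype.card_unique]
  omega

lemma exists_equiv' {m : ℕ} (h : v = 2 ^ m) : Nonempty (Fin v ≃ (Fin m → ZMod 2)) := by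
  classical
  rw [← Fintype.card_eq, Fintype.card_fin, Fintype.card_fun, ZMod.card, Fintype.card_fin]
  exact h

lemma famP_card {m : ℕ} (e : Fin v ≃ {x : Fin m → ZMod 2 // x ≠ 0}) (c : ZMod 2) :
    (famP e c).card = v := by
  classical
  unfold famP
  rw [card_image_of_injective _ (block_inj e c)]
  have h1 := Fintype.card_congr e
  rw [Fintype.card_fin] at h1
  rw [h1, Fintype.card_subtype]

/-- the first family -/
theorem exists_zero {Φ : ∀ k : ℕ, Set ((Fin k → ZMod 2) → ZMod 2)}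
    (hΦ : ∀ k, ∀ f ∈ Φ k, IsAffine f) (h0 : ∀ k, ∀ f ∈ Φ k, f (fun _ => 0) = 0)
    (h1 : ∃ m, lam = 2 ^ m) (h2 : v + 1 = 4 * lam) (h3 : k = 2 * lam) :
    ∃ F : Finset (Finset (Fin v)), IsDesign v k lam F ∧ F.card = v ∧ ClosedAll Φ F := by
  obtain ⟨m, hm⟩ := h1
  obtain ⟨e⟩ := exists_equiv (v := v) (m := m + 2) (by rw [pow_add]; omega)
  have h4 := design_zero e (by omega)
  have e1 : 2 ^ (m + 2 - 1) = k := by
    rw [show m + 2 - 1 = m + 1 by omega, pow_succ]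
    omega
  have e2 : 2 ^ (m + 2 - 2) = lam := by
    rw [show m + 2 - 2 = m by omega]
    omega
  rw [e1, e2] at h4
  refine ⟨famP e 0, h4, famP_card e 0, {∅}, ?_, ?_⟩
  · intro B hB
    rw [mem_singleton] at hB
    rw [hB]
    exact mem_insert_self _ _
  · intro k' f hf
    have h5 := closed_P e (hΦ k' f hf) 0 (h0 k' f hf)
    rw [block_zero] at h5
    exact h5

/-- the second family -/
theorem exists_one {Φ : ∀ k : ℕ, Set ((Fin k → ZMod 2) → ZMod 2)}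
    (hΦ : ∀ k, ∀ f ∈ Φ k, IsAffine f) (h0 : ∀ k, ∀ f ∈ Φ k, f (fun _ => 1) = 1)
    (h1 : ∃ m, lam + 1 = 2 ^ m) (h2 : v = 4 * lam + 3) (h3 : k = 2 * lam + 1) :
    ∃ F : Finset (Finset (Fin v)), IsDesign v k lam F ∧ F.card = v ∧ ClosedAll Φ F := by
  obtain ⟨m, hm⟩ := h1
  obtain ⟨e⟩ := exists_equiv (v := v) (m := m + 2) (by rw [pow_add]; omega)
  have h4 := design_one e (by omega)
  have e1 : 2 ^ (m + 2 - 1) - 1 = k := by
    rw [show m + 2 - 1 = m + 1 by omega, pow_succ]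
    omega
  have e2 : 2 ^ (m + 2 - 2) - 1 = lam := by
    rw [show m + 2 - 2 = m by omega]
    omega
  rw [e1, e2] at h4
  refine ⟨famP e 1, h4, famP_card e 1, {univ}, ?_, ?_⟩
  · intro B hB
    exact mem_insert_of_mem hB
  · intro k' f hf
    have h5 := closed_P e (hΦ k' f hf) 1 (h0 k' f hf)
    rw [block_one] at h5
    exact h5

/-- the third family -/
theorem exists_two {Φ : ∀ k : ℕ, Set ((Fin k → ZMod 2) → ZMod 2)}
    (hΦ : ∀ k, ∀ f ∈ Φ k, IsAffine f)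
    (h1 : ∃ m, lam + 1 = 2 ^ m) (h2 : v = 2 * lam + 2) (h3 : k = lam + 1) :
    ∃ F : Finset (Finset (Fin v)), IsDesign v k lam F ∧ ClosedAll Φ F := by
  obtain ⟨m, hm⟩ := h1
  obtain ⟨e⟩ := exists_equiv' (v := v) (m := m + 1) (by rw [pow_succ]; omega)
  have h4 := design_A e (by omega)
  have e1 : 2 ^ (m + 1 - 1) = k := by
    rw [show m + 1 - 1 = m by omega]
    omega
  have e2 : 2 ^ (m + 1 - 1) - 1 = lam := by
    rw [show m + 1 - 1 = m by omega]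
    omega
  rw [e2, e1] at h4
  exact ⟨famA e, h4, {∅, univ}, subset_rfl, fun k' f hf => closed_A e (hΦ k' f hf)⟩

/-- **All designs.** -/
theorem design_iff {Φ : ∀ k : ℕ, Set ((Fin k → ZMod 2) → ZMod 2)}
    (hΦ : ∀ k, ∀ f ∈ Φ k, IsAffine f) (hΦ2 : ∃ k, ∃ f ∈ Φ k, Binary f) (hl : 1 ≤ lam)
    (hk : 2 ≤ k) (hkv : k + 2 ≤ v) :
    (∃ F : Finset (Finset (Fin v)), IsDesign v k lam F ∧ ClosedAll Φ F) ↔
      ((∃ m, lam = 2 ^ m) ∧ v + 1 = 4 * lam ∧ k = 2 * lam ∧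
        ∀ k, ∀ f ∈ Φ k, f (fun _ => 0) = 0) ∨
      ((∃ m, lam + 1 = 2 ^ m) ∧ v = 4 * lam + 3 ∧ k = 2 * lam + 1 ∧
        ∀ k, ∀ f ∈ Φ k, f (fun _ => 1) = 1) ∨
      ((∃ m, lam + 1 = 2 ^ m) ∧ v = 2 * lam + 2 ∧ k = lam + 1) := by
  constructor
  · rintro ⟨F, h, hC⟩
    exact necessary hΦ2 h hl hk hkv hC
  · rintro (⟨h1, h2, h3, h4⟩ | ⟨h1, h2, h3, h4⟩ | ⟨h1, h2, h3⟩)
    · obtain ⟨F, hF, -, hC⟩ := exists_zero hΦ h4 h1 h2 h3
      exact ⟨F, hF, hC⟩
    · obtain ⟨F, hF, -, hC⟩ := exists_one hΦ h4 h1 h2 h3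
      exact ⟨F, hF, hC⟩
    · exact exists_two hΦ h1 h2 h3

/-- symmetric designs: `k (k - 1) = lam (v - 1)` -/
lemma symm_eq (h : IsDesign v k lam F) (hl : 1 ≤ lam) (hk : 2 ≤ k) (hkv : k + 2 ≤ v)
    (hb : F.card = v) : k * (k - 1) = lam * (v - 1) := by
  obtain ⟨r, -, h1, h2, -, -⟩ := numbers h hl hk hkv
  rw [hb] at h1
  have h3 : k = r := Nat.eq_of_mul_eq_mul_left (by omega) h1
  rw [h3]
  rw [h3] at h2
  exact h2

/-- **Symmetric designs.** -/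
theorem symm_iff {Φ : ∀ k : ℕ, Set ((Fin k → ZMod 2) → ZMod 2)}
    (hΦ : ∀ k, ∀ f ∈ Φ k, IsAffine f) (hΦ2 : ∃ k, ∃ f ∈ Φ k, Binary f) (hl : 1 ≤ lam)
    (hk : 2 ≤ k) (hkv : k + 2 ≤ v) :
    (∃ F : Finset (Finset (Fin v)), (IsDesign v k lam F ∧ F.card = v) ∧ ClosedAll Φ F) ↔
      ((∃ m, lam = 2 ^ m) ∧ v + 1 = 4 * lam ∧ k = 2 * lam ∧
        ∀ k, ∀ f ∈ Φ k, f (fun _ => 0) = 0) ∨
      ((∃ m, lam + 1 = 2 ^ m) ∧ v = 4 * lam + 3 ∧ k = 2 * lam + 1 ∧
        ∀ k, ∀ f ∈ Φ k, f (fun _ => 1) = 1) := by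
  constructor
  · rintro ⟨F, ⟨h, hb⟩, hC⟩
    rcases necessary hΦ2 h hl hk hkv hC with h1 | h1 | ⟨-, h2, h3⟩
    · exact Or.inl h1
    · exact Or.inr h1
    · exfalso
      have h4 := symm_eq h hl hk hkv hb
      subst h2
      subst h3
      have e1 : lam + 1 - 1 = lam := by omega
      have e2 : 2 * lam + 2 - 1 = 2 * lam + 1 := by omega
      rw [e1, e2, mul_comm] at h4
      have := Nat.eq_of_mul_eq_mul_left (by omega) h4
      omega
  · rintro (⟨h1, h2, h3, h4⟩ | ⟨h1, h2, h3, h4⟩)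
    · obtain ⟨F, hF, hb, hC⟩ := exists_zero hΦ h4 h1 h2 h3
      exact ⟨F, ⟨hF, hb⟩, hC⟩
    · obtain ⟨F, hF, hb, hC⟩ := exists_one hΦ h4 h1 h2 h3
      exact ⟨F, ⟨hF, hb⟩, hC⟩

/-- no symmetric design is closed under a negation -/
theorem symm_negation {Φ : ∀ k : ℕ, Set ((Fin k → ZMod 2) → ZMod 2)}
    (hΦ : ∃ k, ∃ f ∈ Φ k, ∃ i, ∀ x, f x = 1 + x i)
    (h : IsDesign v k lam F) (hb : F.card = v) (hl : 1 ≤ lam) (hk : 2 ≤ k) (hkv : k + 2 ≤ v) :
    ¬ ClosedAll Φ F := by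
  intro hC
  have h1 := case_negation hΦ h hl hk hkv hC
  have h2 := symm_eq h hl hk hkv hb
  subst h1
  obtain ⟨k', rfl⟩ : ∃ k', k = k' + 1 := ⟨k - 1, by omega⟩
  have e1 : k' + 1 - 1 = k' := by omega
  have e2 : 2 * (k' + 1) - 1 = 2 * k' + 1 := by omega
  rw [e1, e2] at h2
  have h3 : 4 * lam * (2 * k' + 1) + 1 = (2 * k' + 1) * (2 * k' + 1) := by
    have : 4 * lam * (2 * k' + 1) = 4 * (lam * (2 * k' + 1)) := by ring
    rw [this, ← h2]
    ring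
  have h4 : (2 * k' + 1) ∣ 1 := by
    have h5 : (2 * k' + 1) ∣ 4 * lam * (2 * k' + 1) + 1 := by
      rw [h3]
      exact dvd_mul_right _ _
    exact (Nat.dvd_add_right (dvd_mul_left _ _)).1 h5
  have := Nat.le_of_dvd (by norm_num) h4
  omega

end Q123.SD
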