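import Pool.Agent.Q123.SD.Affine

/-!
Designs closed under sums: the three families of parameters.
-/

set_option autoImplicit false

open Finset Q123.CC Q123.ST

namespace Q123.SD

variable {v k lam : ℕ} {F : Finset (Finset (Fin v))}

lemma word_injective : Function.Injective (word : Finset (Fin v) → Fin v → ZMod 2) :=
  fun _ _ h => word_inj h

lemma word_eq_one {B : Finset (Fin v)} {x : Fin v} : word B x = 1 ↔ x ∈ B := by
  unfold word
  by_cases hx : x ∈ B
  · rw [if_pos hx]
    exact iff_of_true rfl hx
  · rw [if_neg hx]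
    exact iff_of_false (by decide) hx

lemma count_add (h : ∀ B ∈ F, B.card = k) (hk : 0 < k) (hkv : k < v)
    {E : Finset (Finset (Fin v))} (hE : E ⊆ {∅, univ}) (P : Finset (Fin v) → Prop)
    [DecidablePred P] (h0 : ¬ P ∅) (h1 : P univ) :
    ((F ∪ E).filter P).card = (F.filter P).card + (if univ ∈ E then 1 else 0) := by
  classical
  have hun : (univ : Finset (Fin v)).card = v := by rw [card_univ, Fintype.card_fin]
  have hnu : univ ∉ F := fun hh => by
    have := h _ hh
    omega
  by_cases hu : univ ∈ E
  · rw [if_pos hu]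
    have h2 : (F ∪ E).filter P = insert univ (F.filter P) := by
      ext B
      rw [mem_filter, mem_union, mem_insert, mem_filter]
      constructor
      · rintro ⟨h3 | h3, h4⟩
        · exact Or.inr ⟨h3, h4⟩
        · have h5 := hE h3
          rw [mem_insert, mem_singleton] at h5
          rcases h5 with rfl | rfl
          · exact absurd h4 h0
          · exact Or.inl rfl
      · rintro (rfl | ⟨h3, h4⟩)
        · exact ⟨Or.inr hu, h1⟩
        · exact ⟨Or.inl h3, h4⟩
    rw [h2, card_insert_of_notMem fun hh => hnu (mem_filter.1 hh).1]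
  · rw [if_neg hu, add_zero]
    congr 1
    ext B
    rw [mem_filter, mem_union, mem_filter]
    constructor
    · rintro ⟨h3 | h3, h4⟩
      · exact ⟨h3, h4⟩
      · have h5 := hE h3
        rw [mem_insert, mem_singleton] at h5
        rcases h5 with rfl | rfl
        · exact absurd h4 h0
        · exact absurd h3 hu
    · rintro ⟨h3, h4⟩
      exact ⟨Or.inl h3, h4⟩

lemma count_all (h : ∀ B ∈ F, B.card = k) (hk : 0 < k) (hkv : k < v)
    {E : Finset (Finset (Fin v))} (hE : E ⊆ {∅, univ}) :
    (F ∪ E).card = F.card + (if ∅ ∈ E then 1 else 0) + (if univ ∈ E then 1 else 0) := by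
  classical
  have hun : (univ : Finset (Fin v)).card = v := by rw [card_univ, Fintype.card_fin]
  have hdis : Disjoint F E := by
    rw [disjoint_left]
    intro B hB hB'
    have h5 := hE hB'
    rw [mem_insert, mem_singleton] at h5
    have h6 := h B hB
    rcases h5 with rfl | rfl
    · rw [card_empty] at h6
      omega
    · omega
  have hne : (∅ : Finset (Fin v)) ≠ univ := by
    intro hh
    have := congrArg card hh
    rw [card_empty, hun] at this
    omega
  rw [card_union_of_disjoint hdis, add_assoc]
  congr 1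
  by_cases h0 : ∅ ∈ E <;> by_cases hV : univ ∈ E
  · rw [if_pos h0, if_pos hV]
    have : E = {∅, univ} := by
      apply subset_antisymm hE
      intro B hB
      rw [mem_insert, mem_singleton] at hB
      rcases hB with rfl | rfl
      · exact h0
      · exact hV
    rw [this, card_pair hne]
  · rw [if_pos h0, if_neg hV]
    have : E = {∅} := by
      ext B
      rw [mem_singleton]
      constructor
      · intro hB
        have h5 := hE hB
        rw [mem_insert, mem_singleton] at h5
        rcases h5 with h5 | h5
        · exact h5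
        · exact absurd (h5 ▸ hB) hV
      · intro hB
        rw [hB]
        exact h0
    rw [this, card_singleton]
  · rw [if_neg h0, if_pos hV]
    have : E = {univ} := by
      ext B
      rw [mem_singleton]
      constructor
      · intro hB
        have h5 := hE hB
        rw [mem_insert, mem_singleton] at h5
        rcases h5 with h5 | h5
        · exact absurd (h5 ▸ hB) h0
        · exact h5
      · intro hB
        rw [hB]
        exact hV
    rw [this, card_singleton]
  · rw [if_neg h0, if_neg hV]
    have : E = ∅ := by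
      rw [eq_empty_iff_forall_notMem]
      intro B hB
      have h5 := hE hB
      rw [mem_insert, mem_singleton] at h5
      rcases h5 with h5 | h5
      · exact absurd (h5 ▸ hB) h0
      · exact absurd (h5 ▸ hB) hV
    rw [this, card_empty]

/-- the parameters of designs closed under sums -/
theorem params (h : IsDesign v k lam F) (hl : 1 ≤ lam) (hk : 2 ≤ k) (hkv : k + 2 ≤ v)
    {E : Finset (Finset (Fin v))} (hE : E ⊆ {∅, univ})
    (hS : ∀ x ∈ (F ∪ E).image word, ∀ y ∈ (F ∪ E).image word, ∀ z ∈ (F ∪ E).image word,
      x + y + z ∈ (F ∪ E).image word)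
    (hpow : ∃ d : ℕ, ((F ∪ E).image word).card = 2 ^ d) :
    (∅ ∈ E ∧ univ ∉ E ∧ (∃ m, lam = 2 ^ m) ∧ v + 1 = 4 * lam ∧ k = 2 * lam) ∨
      (∅ ∉ E ∧ univ ∈ E ∧ (∃ m, lam + 1 = 2 ^ m) ∧ v = 4 * lam + 3 ∧ k = 2 * lam + 1) ∨
      (∅ ∈ E ∧ univ ∈ E ∧ (∃ m, lam + 1 = 2 ^ m) ∧ v = 2 * lam + 2 ∧ k = lam + 1) := by
  classical
  obtain ⟨x, y, hxy⟩ : ∃ x y : Fin v, x ≠ y :=
    ⟨⟨0, by omega⟩, ⟨1, by omega⟩, by simp [Fin.ext_iff]⟩
  obtain ⟨r, hr, hbk, hrk, -, -⟩ := numbers h hl hk hkv
  have hq := quarter hS (patterns_word h hl hk hkv E hxy)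
  have f1 : (((F ∪ E).image word).filter fun w => w x = 1 ∧ w y = 1).card =
      lam + (if univ ∈ E then 1 else 0) := by
    rw [filter_image, card_image_of_injective _ word_injective]
    rw [← h.2 x y hxy, ← count_add h.1 (by omega) (by omega) hE (fun B => x ∈ B ∧ y ∈ B)
      (fun hh => absurd hh.1 (notMem_empty _)) ⟨mem_univ _, mem_univ _⟩]
    congr 1
    apply filter_congr
    intro B _
    rw [word_eq_one, word_eq_one]
  have f2 : (((F ∪ E).image word).filter fun w => w x = 1).card =
      r + (if univ ∈ E then 1 else 0) := by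
    rw [filter_image, card_image_of_injective _ word_injective]
    rw [← hr x, ← count_add h.1 (by omega) (by omega) hE (fun B => x ∈ B)
      (fun hh => absurd hh (notMem_empty _)) (mem_univ _)]
    congr 1
    apply filter_congr
    intro B _
    rw [word_eq_one]
  have f3 : ((F ∪ E).image word).card =
      F.card + (if ∅ ∈ E then 1 else 0) + (if univ ∈ E then 1 else 0) := by
    rw [card_image_of_injective _ word_injective, count_all h.1 (by omega) (by omega) hE]
  obtain ⟨d, hd⟩ := hpow
  have hN : ∃ m, lam + (if univ ∈ E then 1 else 0) = 2 ^ m := by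
    have h1 : 4 * (lam + (if univ ∈ E then 1 else 0)) = 2 ^ d := by rw [← hd, hq.1, f1]
    have h2 : 2 ≤ d := by
      by_contra hcon
      push Not at hcon
      have : (2 : ℕ) ^ d ≤ 2 ^ 1 := Nat.pow_le_pow_right (by norm_num) (by omega)
      have h3 : 4 * 1 ≤ 4 * (lam + (if univ ∈ E then 1 else 0)) :=
        Nat.mul_le_mul_left _ (by omega)
      omega
    refine ⟨d - 2, ?_⟩
    have h3 : (2 : ℕ) ^ d = 4 * 2 ^ (d - 2) := by
      conv_lhs => rw [show d = 2 + (d - 2) by omega, pow_add]
      norm_num
    omega
  have h1 := solve (v := v) (k := k) (lam := lam) (b := F.card) (r := r)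
    (N := lam + (if univ ∈ E then 1 else 0)) (e0 := if ∅ ∈ E then 1 else 0)
    (eV := if univ ∈ E then 1 else 0) (by omega) (by split_ifs <;> omega)
    (by split_ifs <;> omega) hk hkv (by rw [← f2, hq.2, f1]) rfl (by rw [← f3, hq.1, f1]) hbk hrk
  rcases h1 with ⟨h2, h3, h4, h5, h6⟩ | ⟨h2, h3, h4, h5, h6⟩ | ⟨h2, h3, h4, h5, h6⟩
  · left
    have g0 : ∅ ∈ E := by
      by_contra hh
      rw [if_neg hh] at h2
      omega
    have gV : univ ∉ E := by
      intro hh
      rw [if_pos hh] at h3
      omega
    rw [if_neg gV, add_zero] at hN h5 h6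
    exact ⟨g0, gV, hN, h5, h6⟩
  · right
    left
    have g0 : ∅ ∉ E := by
      intro hh
      rw [if_pos hh] at h2
      omega
    have gV : univ ∈ E := by
      by_contra hh
      rw [if_neg hh] at h3
      omega
    rw [if_pos gV] at hN h5 h6
    exact ⟨g0, gV, hN, by omega, by omega⟩
  · right
    right
    have g0 : ∅ ∈ E := by
      by_contra hh
      rw [if_neg hh] at h2
      omega
    have gV : univ ∈ E := by
      by_contra hh
      rw [if_neg hh] at h3
      omega
    rw [if_pos gV] at hN h5 h6
    exact ⟨g0, gV, hN, by omega, by omega⟩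

end Q123.SD
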